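import Pool.Agent.TH666.FP.Geom

/-!
# 2-layer fan-planar graphs can be recognised in polynomial time

The definitions used in the statement:
* `Pool.Agent.TH666.FP.TwoLayerFanPlanar G` (file `Pool.Agent.TH666.FP.Defs`): `G` has a
  straight-line drawing which is fan-planar (neither configuration (I) nor configuration (II)
  occurs), in which every vertex lies on one of two distinct horizontal lines and every edge joins
  vertices on different lines;
* `Pool.Agent.TH666.FP.graphOf (V, E)`: the graph with the list of vertices `V` and the list of
  edges `E`;
* `Pool.Agent.NPC.InPP P` (files `Pool.Agent.NPC.Defs` and `Pool.Agent.NPC.Classes`): the language
  of the bit strings coding the yes-instances of `P` is decided by a polynomial-time Turing machine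
  (Mathlib's `Turing.TM2ComputableInPolyTime`).

Proof.  Vertices of degree at most two which have three twins can be removed: they can be put back
next to one of the twins.  In a drawing of a graph without such vertices all degrees are at most
15.  If moreover every vertex has a neighbour, then the two lines can be merged into a linear order
in which every edge has span less than a constant.  Whether a fan-planar drawing of a connected
graph with such an order exists is decided by a dynamic program which adds the vertices one after
the other and only remembers the last (constantly many) ones and the set of the earlier ones;
since the graph is connected and the degrees are bounded, there are only polynomially many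
possibilities for this information.
-/

namespace Pool.Agent.Results.MP_f9c574_lc.TwoLayerInP

open Pool.Agent.NPC Pool.Agent.TH666.FP

/-- Recognising 2-layer fan-planar graphs is in P. -/
theorem result : InPP (fun I : List ℕ × List (ℕ × ℕ) => TwoLayerFanPlanar (graphOf I)) := by
  obtain ⟨d, hd, h⟩ := pp_comb
  exact inPP_of hd fun I => (geom_iff_comb I).trans (h I).symm

end Pool.Agent.Results.MP_f9c574_lc.TwoLayerInP
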